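import Pool.Agent.Helper27.TB.VGood
import Pool.Agent.Helper5.TB.CritParam
import Pool.Agent.Helper39.LF.U1
import Pool.Agent.Helper5.LD.ToCore

/-! # The potential of a tetrahedron with four complete edges

At the parameters `(2 x, 0, 0, 2 x', 0, 0)` the potential of the `6j`-symbol is the critical value of
the potential of two vertices of a two-bridge chain. -/

set_option autoImplicit false

namespace ARB
open Complex Metric Filter Topology
open Pool.Agent.Helper5.TB (ell Vx Vy Vxx Vxy Vyy VGood)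

/-- the parameters of the tetrahedron of an edge -/
noncomputable def six (u v : ℂ) : Fin 6 → ℂ := ![u, 0, 0, v, 0, 0]

/-! ### trigonometry -/

/-- `√2/2` -/
noncomputable def sg2 : ℂ := (Real.sqrt 2 / 2 : ℝ)

theorem sg2_sq : sg2 ^ 2 = 1 / 2 := by
  unfold sg2
  rw [← Complex.ofReal_pow, div_pow, Real.sq_sqrt (by norm_num)]
  norm_num

theorem sin_q : sin ((Real.pi : ℂ) / 4) = sg2 := by
  unfold sg2
  rw [← Real.sin_pi_div_four]
  push_cast
  rfl

theorem cos_q : cos ((Real.pi : ℂ) / 4) = sg2 := by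
  unfold sg2
  rw [← Real.cos_pi_div_four]
  push_cast
  rfl

theorem sin_A (x y : ℂ) : sin (3 * Real.pi / 4 + x + y) =
    sg2 * ((cos x - sin x) * cos y - (cos x + sin x) * sin y) := by
  have h : (3 * Real.pi / 4 + x + y : ℂ) = (Real.pi / 4 + (x + y)) + Real.pi / 2 := by ring
  rw [h, sin_add_pi_div_two, cos_add, sin_q, cos_q, cos_add, sin_add]
  ring

theorem sin_B (x y : ℂ) : sin (Real.pi / 4 + x - y) =
    sg2 * ((cos x + sin x) * cos y - (cos x - sin x) * sin y) := by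
  have h : (Real.pi / 4 + x - y : ℂ) = Real.pi / 4 + (x - y) := by ring
  rw [h, sin_add, sin_q, cos_q, cos_sub, sin_sub]
  ring

theorem sin_D (y : ℂ) : sin (Real.pi / 4 + y) = sg2 * (cos y + sin y) := by
  rw [sin_add, sin_q, cos_q]
  ring

theorem AA_BB (x y : ℂ) : sin (3 * Real.pi / 4 + x + y) ^ 2 + sin (Real.pi / 4 + x - y) ^ 2 =
    1 - cos (2 * x) * sin (2 * y) := by
  rw [sin_A, sin_B, cos_two_mul', sin_two_mul]
  have h2 := sg2_sq
  have hx := sin_sq_add_cos_sq x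
  have hy := sin_sq_add_cos_sq y
  have e : (sg2 * ((cos x - sin x) * cos y - (cos x + sin x) * sin y)) ^ 2 +
      (sg2 * ((cos x + sin x) * cos y - (cos x - sin x) * sin y)) ^ 2 =
      sg2 ^ 2 * (2 * (sin x ^ 2 + cos x ^ 2) * (sin y ^ 2 + cos y ^ 2) -
        4 * (cos x ^ 2 - sin x ^ 2) * (sin y * cos y)) := by ring
  rw [e, h2, hx, hy]
  ring

theorem two_AB (x y : ℂ) : 2 * sin (3 * Real.pi / 4 + x + y) * sin (Real.pi / 4 + x - y) =
    cos (2 * x) - sin (2 * y) := by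
  rw [sin_A, sin_B, cos_two_mul', sin_two_mul]
  have h2 := sg2_sq
  have hx := sin_sq_add_cos_sq x
  have hy := sin_sq_add_cos_sq y
  have e : 2 * (sg2 * ((cos x - sin x) * cos y - (cos x + sin x) * sin y)) *
      (sg2 * ((cos x + sin x) * cos y - (cos x - sin x) * sin y)) =
      sg2 ^ 2 * (2 * (cos x ^ 2 - sin x ^ 2) * (sin y ^ 2 + cos y ^ 2) -
        4 * (sin x ^ 2 + cos x ^ 2) * (sin y * cos y)) := by ring
  rw [e, h2, hx, hy]
  ring

theorem two_DD (y : ℂ) : 2 * sin (Real.pi / 4 + y) ^ 2 = 1 + sin (2 * y) := by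
  rw [sin_D, sin_two_mul]
  have h2 := sg2_sq
  have hy := sin_sq_add_cos_sq y
  have e : 2 * (sg2 * (cos y + sin y)) ^ 2 = sg2 ^ 2 * (2 * (sin y ^ 2 + cos y ^ 2) + 4 * (sin y * cos y)) := by
    ring
  rw [e, h2, hy]
  ring

theorem exp_ell {τ : ℂ} (h : sin τ ≠ 0) : exp (Real.pi * ell τ) = 2 * sin τ := by
  unfold ell
  have hp : (Real.pi : ℂ) ≠ 0 := by exact_mod_cast Real.pi_ne_zero
  rw [mul_div_cancel₀ _ hp, exp_log (mul_ne_zero two_ne_zero h)]

theorem cosh_Vx {x y : ℂ} (hA : sin (3 * Real.pi / 4 + x + y) ≠ 0) (hB : sin (Real.pi / 4 + x - y) ≠ 0) :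
    cosh (Real.pi * Vx x y) * (cos (2 * x) - sin (2 * y)) = 1 - cos (2 * x) * sin (2 * y) := by
  rw [← AA_BB, ← two_AB]
  unfold Vx
  have h1 : exp (Real.pi * (ell (3 * Real.pi / 4 + x + y) - ell (Real.pi / 4 + x - y))) =
      sin (3 * Real.pi / 4 + x + y) / sin (Real.pi / 4 + x - y) := by
    rw [mul_sub, exp_sub, exp_ell hA, exp_ell hB, mul_div_mul_left _ _ two_ne_zero]
  have h2 : exp (-(Real.pi * (ell (3 * Real.pi / 4 + x + y) - ell (Real.pi / 4 + x - y)))) =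
      sin (Real.pi / 4 + x - y) / sin (3 * Real.pi / 4 + x + y) := by
    rw [exp_neg, h1, inv_div]
  unfold Complex.cosh
  rw [h1, h2]
  generalize sin (3 * Real.pi / 4 + x + y) = A at hA ⊢
  generalize sin (Real.pi / 4 + x - y) = B at hB ⊢
  field_simp

theorem rel_Vy {x x' y : ℂ} (hA : sin (3 * Real.pi / 4 + x + y) ≠ 0) (hB : sin (Real.pi / 4 + x - y) ≠ 0)
    (hA' : sin (3 * Real.pi / 4 + x' + y) ≠ 0) (hB' : sin (Real.pi / 4 + x' - y) ≠ 0)
    (hD : sin (Real.pi / 4 + y) ≠ 0) (h : Vy x y + Vy x' y = 0) :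
    (cos (2 * x) - sin (2 * y)) * (cos (2 * x') - sin (2 * y)) = (1 + sin (2 * y)) ^ 2 := by
  have h1 : exp (Real.pi * (Vy x y + Vy x' y)) = 1 := by
    rw [h, mul_zero, exp_zero]
  have h2 : Real.pi * (Vy x y + Vy x' y) = Real.pi * ell (3 * Real.pi / 4 + x + y) +
      Real.pi * ell (Real.pi / 4 + x - y) + Real.pi * ell (3 * Real.pi / 4 + x' + y) +
      Real.pi * ell (Real.pi / 4 + x' - y) - (Real.pi * ell (Real.pi / 4 + y) + Real.pi * ell (Real.pi / 4 + y) +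
      Real.pi * ell (Real.pi / 4 + y) + Real.pi * ell (Real.pi / 4 + y)) := by
    unfold Vy
    ring
  rw [h2, exp_sub, exp_add, exp_add, exp_add, exp_add, exp_add, exp_add, exp_ell hA, exp_ell hB, exp_ell hA',
    exp_ell hB', exp_ell hD] at h1
  rw [← two_AB, ← two_AB, ← two_DD]
  have hD4 : 2 * sin (Real.pi / 4 + y) * (2 * sin (Real.pi / 4 + y)) * (2 * sin (Real.pi / 4 + y)) *
      (2 * sin (Real.pi / 4 + y)) ≠ 0 := by
    have := mul_ne_zero (two_ne_zero (α := ℂ)) hD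
    exact mul_ne_zero (mul_ne_zero (mul_ne_zero this this) this) this
  rw [div_eq_one_iff_eq hD4] at h1
  linear_combination (1 / 4) * h1

theorem cosh_TB {x x' y : ℂ} (hA : sin (3 * Real.pi / 4 + x + y) ≠ 0) (hB : sin (Real.pi / 4 + x - y) ≠ 0)
    (hA' : sin (3 * Real.pi / 4 + x' + y) ≠ 0) (hB' : sin (Real.pi / 4 + x' - y) ≠ 0)
    (hD : sin (Real.pi / 4 + y) ≠ 0) (h : Vy x y + Vy x' y = 0) :
    cosh (Real.pi * Vx x y) * (1 + cos (2 * x)) = 2 + cos (2 * x') - cos (2 * x) * cos (2 * x') := by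
  have h1 := cosh_Vx hA hB
  have h2 := rel_Vy hA hB hA' hB' hD h
  have h3 : cos (2 * x) - sin (2 * y) ≠ 0 := by
    rw [← two_AB]
    exact mul_ne_zero (mul_ne_zero two_ne_zero hA) hB
  apply mul_right_cancel₀ h3
  linear_combination (1 + cos (2 * x)) * h1 + (cos (2 * x) - 1) * h2

/-! ### the `6j` side -/

theorem gg_six {a : ℂ} : Pool.Agent.Helper5.LD.gg a 0 0 = (1 + cos a) ^ 2 := by
  unfold Pool.Agent.Helper5.LD.gg
  rw [cos_zero]
  ring

theorem sqrt_four {c : ℂ} (h : 0 < ((1 + c) ^ 2).re) : ((1 + c) ^ 2 * (1 + c) ^ 2) ^ (1 / 2 : ℂ) = (1 + c) ^ 2 := by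
  have h1 : ((1 + c) ^ 2 * (1 + c) ^ 2) = ((1 + c) ^ 2) ^ (2 : ℕ) := by
    rw [← pow_two]
  rw [h1, show (1 / 2 : ℂ) = 2⁻¹ by norm_num]
  exact sq_cpow_two_inv h

theorem cosh_six0 {R C ε : ℝ} {V : (Fin 6 → ℂ) → ℂ} {Vm : ℕ → (Fin 6 → ℂ) → ℂ}
    (h : Pool.Agent.Helper5.LD.Core R C ε V Vm) {u v : ℂ} (hu : ‖u‖ < R) (hv : ‖v‖ < R)
    (hc : 0 < ((1 + cos u) ^ 2).re) (hc0 : 1 + cos u ≠ 0) :
    cosh (2 * LFU.dV V (six u v) 0) * (1 + cos u) = 2 + cos v - cos u * cos v := by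
  have hR := h.R_pos
  have hm : six u v ∈ Pool.Agent.Helper5.LD.PD R := by
    intro k
    fin_cases k <;> simp [six, hu, hv, hR]
  have h1 := h.grad 0 _ hm
  have e1 : Pool.Agent.Helper5.LD.EE (six u v ∘ Pool.Agent.Helper5.LD.pe 0) = (1 + cos u) ^ 2 := by
    unfold Pool.Agent.Helper5.LD.EE
    have e0 : (six u v ∘ Pool.Agent.Helper5.LD.pe 0) 0 = u := rfl
    have e2 : (six u v ∘ Pool.Agent.Helper5.LD.pe 0) 1 = 0 := rfl
    have e3 : (six u v ∘ Pool.Agent.Helper5.LD.pe 0) 2 = 0 := rfl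
    have e4 : (six u v ∘ Pool.Agent.Helper5.LD.pe 0) 4 = 0 := rfl
    have e5 : (six u v ∘ Pool.Agent.Helper5.LD.pe 0) 5 = 0 := rfl
    rw [e0, e2, e3, e4, e5, gg_six]
    exact sqrt_four hc
  have e2 : Pool.Agent.Helper5.LD.BB 0 (six u v ∘ Pool.Agent.Helper5.LD.pe 0) =
      (1 + cos u) * (2 + cos v - cos u * cos v) := by
    unfold Pool.Agent.Helper5.LD.BB
    have e0 : (six u v ∘ Pool.Agent.Helper5.LD.pe 0) 0 = u := rfl
    have e2 : (six u v ∘ Pool.Agent.Helper5.LD.pe 0) 1 = 0 := rfl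
    have e3 : (six u v ∘ Pool.Agent.Helper5.LD.pe 0) 2 = 0 := rfl
    have e3' : (six u v ∘ Pool.Agent.Helper5.LD.pe 0) 3 = v := rfl
    have e4 : (six u v ∘ Pool.Agent.Helper5.LD.pe 0) 4 = 0 := rfl
    have e5 : (six u v ∘ Pool.Agent.Helper5.LD.pe 0) 5 = 0 := rfl
    rw [e0, e2, e3, e3', e4, e5, cos_zero]
    ring
  rw [e1, e2] at h1
  have h2 : LFU.dV V (six u v) 0 = deriv (fun t => V (Function.update (six u v) 0 t)) (six u v 0) := rfl
  rw [← h2] at h1
  apply mul_right_cancel₀ hc0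
  linear_combination h1

theorem cosh_six3 {R C ε : ℝ} {V : (Fin 6 → ℂ) → ℂ} {Vm : ℕ → (Fin 6 → ℂ) → ℂ}
    (h : Pool.Agent.Helper5.LD.Core R C ε V Vm) {u v : ℂ} (hu : ‖u‖ < R) (hv : ‖v‖ < R)
    (hc : 0 < ((1 + cos v) ^ 2).re) (hc0 : 1 + cos v ≠ 0) :
    cosh (2 * LFU.dV V (six u v) 3) * (1 + cos v) = 2 + cos u - cos v * cos u := by
  have hR := h.R_pos
  have hm : six u v ∈ Pool.Agent.Helper5.LD.PD R := by
    intro k
    fin_cases k <;> simp [six, hu, hv, hR]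
  have h1 := h.grad 3 _ hm
  have e0 : (six u v ∘ Pool.Agent.Helper5.LD.pe 3) 0 = v := rfl
  have e2 : (six u v ∘ Pool.Agent.Helper5.LD.pe 3) 1 = 0 := rfl
  have e3 : (six u v ∘ Pool.Agent.Helper5.LD.pe 3) 2 = 0 := rfl
  have e3' : (six u v ∘ Pool.Agent.Helper5.LD.pe 3) 3 = u := rfl
  have e4 : (six u v ∘ Pool.Agent.Helper5.LD.pe 3) 4 = 0 := rfl
  have e5 : (six u v ∘ Pool.Agent.Helper5.LD.pe 3) 5 = 0 := rfl
  have f1 : Pool.Agent.Helper5.LD.EE (six u v ∘ Pool.Agent.Helper5.LD.pe 3) = (1 + cos v) ^ 2 := by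
    unfold Pool.Agent.Helper5.LD.EE
    rw [e0, e2, e3, e4, e5, gg_six]
    exact sqrt_four hc
  have f2 : Pool.Agent.Helper5.LD.BB 0 (six u v ∘ Pool.Agent.Helper5.LD.pe 3) =
      (1 + cos v) * (2 + cos u - cos v * cos u) := by
    unfold Pool.Agent.Helper5.LD.BB
    rw [e0, e2, e3, e3', e4, e5, cos_zero]
    ring
  rw [f1, f2] at h1
  have h2 : LFU.dV V (six u v) 3 = deriv (fun t => V (Function.update (six u v) 3 t)) (six u v 3) := rfl
  rw [← h2] at h1
  apply mul_right_cancel₀ hc0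
  linear_combination h1

/-- small numbers with the same `cosh` -/
theorem cosh_inj {a b : ℂ} (ha : ‖a‖ < 1) (hb : ‖b‖ < 1) (h : cosh a = cosh b) : a = b ∨ a = -b := by
  rw [← cos_mul_I, ← cos_mul_I, cos_eq_cos_iff] at h
  obtain ⟨k, h⟩ := h
  have hk : k = 0 := by
    by_contra hk
    have h1 : (1 : ℝ) ≤ |(k : ℝ)| := by
      exact_mod_cast Int.one_le_abs hk
    have h2 : ‖(2 * (k : ℂ) * Real.pi)‖ = 2 * |(k : ℝ)| * Real.pi := by
      rw [norm_mul, norm_mul, Complex.norm_intCast, Complex.norm_real, Real.norm_of_nonneg Real.pi_pos.le]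
      norm_num
    have h3 : ‖(2 * (k : ℂ) * Real.pi)‖ ≤ ‖a‖ + ‖b‖ := by
      rcases h with h | h
      · have h4 : 2 * (k : ℂ) * Real.pi = (b - a) * I := by linear_combination -h
        rw [h4, norm_mul, norm_I, mul_one]
        exact (norm_sub_le _ _).trans (by linarith)
      · have h4 : 2 * (k : ℂ) * Real.pi = (b + a) * I := by linear_combination -h
        rw [h4, norm_mul, norm_I, mul_one]
        exact (norm_add_le _ _).trans (by linarith)
    rw [h2] at h3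
    have h5 := Real.pi_gt_three
    nlinarith
  rw [hk, Int.cast_zero, mul_zero, zero_mul, zero_add, zero_sub] at h
  have hI : I ≠ 0 := I_ne_zero
  rcases h with h | h
  · left
    apply mul_right_cancel₀ hI
    linear_combination -h
  · right
    apply mul_right_cancel₀ hI
    linear_combination h

end ARB
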