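import Pool.Agent.Helper84.ARB.Pot

/-! # The potential of a tetrahedron with four complete edges: the identity -/

set_option autoImplicit false

namespace ARB
open Complex Metric Filter Topology
open Pool.Agent.Helper5.TB (ell Vx Vy Vxx Vxy Vyy VGood critParam)

/-- what is needed of the trigonometric functions near the origin -/
structure TGood (r : ℝ) : Prop where
  A : ∀ x y : ℂ, ‖x‖ < r → ‖y‖ < r → sin (3 * Real.pi / 4 + x + y) ≠ 0
  B : ∀ x y : ℂ, ‖x‖ < r → ‖y‖ < r → sin (Real.pi / 4 + x - y) ≠ 0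
  D : ∀ y : ℂ, ‖y‖ < r → sin (Real.pi / 4 + y) ≠ 0
  P : ∀ x : ℂ, ‖x‖ < r → 0 < ((1 + cos (2 * x)) ^ 2).re
  Q : ∀ x : ℂ, ‖x‖ < r → 1 + cos (2 * x) ≠ 0

theorem sg2_ne : sg2 ≠ 0 := by
  intro h
  have := sg2_sq
  rw [h] at this
  norm_num at this

theorem exists_tgood : ∃ r > 0, TGood r := by
  have c1 : Continuous fun p : ℂ × ℂ => sin (3 * Real.pi / 4 + p.1 + p.2) :=
    continuous_sin.comp ((continuous_const.add continuous_fst).add continuous_snd)
  have c2 : Continuous fun p : ℂ × ℂ => sin (Real.pi / 4 + p.1 - p.2) :=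
    continuous_sin.comp ((continuous_const.add continuous_fst).sub continuous_snd)
  have c3 : Continuous fun p : ℂ × ℂ => sin (Real.pi / 4 + p.2) :=
    continuous_sin.comp (continuous_const.add continuous_snd)
  have c4 : Continuous fun p : ℂ × ℂ => ((1 + cos (2 * p.1)) ^ 2).re :=
    continuous_re.comp ((continuous_const.add (continuous_cos.comp (continuous_const.mul continuous_fst))).pow 2)
  have c5 : Continuous fun p : ℂ × ℂ => 1 + cos (2 * p.1) :=
    continuous_const.add (continuous_cos.comp (continuous_const.mul continuous_fst))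
  have n1 : sin (3 * Real.pi / 4 + ((0, 0) : ℂ × ℂ).1 + ((0, 0) : ℂ × ℂ).2) ≠ 0 := by
    simp only
    rw [sin_A]
    simp [sg2_ne]
  have n2 : sin (Real.pi / 4 + ((0, 0) : ℂ × ℂ).1 - ((0, 0) : ℂ × ℂ).2) ≠ 0 := by
    simp only
    rw [sin_B]
    simp [sg2_ne]
  have n3 : sin (Real.pi / 4 + ((0, 0) : ℂ × ℂ).2) ≠ 0 := by
    simp only
    rw [sin_D]
    simp [sg2_ne]
  have n4 : 0 < ((1 + cos (2 * ((0, 0) : ℂ × ℂ).1)) ^ 2).re := by
    simp only [mul_zero, cos_zero]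
    norm_num
  have n5 : 1 + cos (2 * ((0, 0) : ℂ × ℂ).1) ≠ 0 := by
    simp only [mul_zero, cos_zero]
    norm_num
  have hev := ((((c1.continuousAt.eventually_ne n1).and (c2.continuousAt.eventually_ne n2)).and
    (c3.continuousAt.eventually_ne n3)).and (c4.continuousAt.eventually (lt_mem_nhds n4))).and
    (c5.continuousAt.eventually_ne n5)
  obtain ⟨r, hr, h⟩ := Metric.eventually_nhds_iff_ball.1 hev
  have hin : ∀ x y : ℂ, ‖x‖ < r → ‖y‖ < r → ((x, y) : ℂ × ℂ) ∈ ball ((0, 0) : ℂ × ℂ) r := by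
    intro x y hx hy
    rw [mem_ball, Prod.dist_eq, max_lt_iff]
    simp only [dist_zero_right]
    exact ⟨hx, hy⟩
  refine ⟨r, hr, ⟨?_, ?_, ?_, ?_, ?_⟩⟩
  · intro x y hx hy
    exact (h _ (hin x y hx hy)).1.1.1.1
  · intro x y hx hy
    exact (h _ (hin x y hx hy)).1.1.1.2
  · intro y hy
    exact (h _ (hin 0 y (by simpa using hr) hy)).1.1.2
  · intro x hx
    exact (h _ (hin x 0 hx (by simpa using hr))).1.2
  · intro x hx
    exact (h _ (hin x 0 hx (by simpa using hr))).2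

theorem Vx_zero {δ : ℝ} (hV : VGood δ) {y : ℂ} (hy : y ∈ ball (0 : ℂ) (6/5 * δ)) : Vx 0 y = 0 := by
  have h := hV.evenx 0 (mem_ball_self (by have := hV.pos; positivity)) y hy
  rw [neg_zero] at h
  have h2 : (2 : ℂ) * Vx 0 y = 0 := by linear_combination h
  exact (mul_eq_zero.1 h2).resolve_left two_ne_zero

theorem Vx_bound {δ : ℝ} (hV : VGood δ) {x y : ℂ} (hx : x ∈ ball (0 : ℂ) (6/5 * δ))
    (hy : y ∈ ball (0 : ℂ) (6/5 * δ)) : ‖Vx x y + 2 / Real.pi * x‖ ≤ 1 / 100 * ‖x‖ := by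
  have h0 : (0 : ℂ) ∈ ball (0 : ℂ) (6/5 * δ) := mem_ball_self (by have := hV.pos; positivity)
  have h := Convex.norm_image_sub_le_of_norm_hasDerivWithin_le
    (f := fun x => Vx x y + 2 / Real.pi * x) (f' := fun x => Vxx x y + 2 / Real.pi) (C := 1 / 100)
    (s := ball (0 : ℂ) (6/5 * δ)) (fun z hz => ?_) (fun z hz => hV.bxx z hz y hy) (convex_ball 0 _) h0 hx
  · simp only [mul_zero, add_zero, sub_zero] at h
    rw [Vx_zero hV hy, sub_zero] at h
    exact h
  · have h1 := (hV.dxx z hz y hy).add ((hasDerivAt_id z).const_mul (2 / (Real.pi : ℂ)))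
    rw [mul_one] at h1
    exact h1.hasDerivWithinAt

theorem half_pi_ne : (Real.pi : ℂ) ≠ 0 := by exact_mod_cast Real.pi_ne_zero

/-- the choice of the sign -/
theorem eq_of_cosh {a b x : ℂ} (hx : ‖x‖ ≤ 1 / 10) (ha : ‖2 * a + 2 * x‖ ≤ 1 / 10 * ‖x‖)
    (hb : ‖Real.pi * b + 2 * x‖ ≤ 1 / 10 * ‖x‖) (h : cosh (2 * a) = cosh (Real.pi * b)) :
    a = Real.pi / 2 * b := by
  have n1 : ‖2 * a‖ < 1 := by
    have h1 : 2 * a = (2 * a + 2 * x) - 2 * x := by ring
    rw [h1]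
    refine (norm_sub_le _ _).trans_lt ?_
    rw [norm_mul]
    have : ‖(2 : ℂ)‖ = 2 := by norm_num
    rw [this]
    linarith
  have n2 : ‖Real.pi * b‖ < 1 := by
    have h1 : Real.pi * b = (Real.pi * b + 2 * x) - 2 * x := by ring
    rw [h1]
    refine (norm_sub_le _ _).trans_lt ?_
    rw [norm_mul]
    have : ‖(2 : ℂ)‖ = 2 := by norm_num
    rw [this]
    linarith
  rcases cosh_inj n1 n2 h with h1 | h1
  · linear_combination (1 / 2) * h1
  · have h2 : (4 : ℂ) * x = (2 * a + 2 * x) + (Real.pi * b + 2 * x) := by linear_combination -h1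
    have h3 : 4 * ‖x‖ ≤ 1 / 10 * ‖x‖ + 1 / 10 * ‖x‖ := by
      have h4 : ‖(4 : ℂ) * x‖ = 4 * ‖x‖ := by
        rw [norm_mul]
        norm_num
      rw [← h4, h2]
      exact (norm_add_le _ _).trans (add_le_add ha hb)
    have h5 : ‖x‖ = 0 := by
      have := norm_nonneg x
      linarith
    rw [h5, mul_zero] at ha hb
    have ha' := norm_le_zero_iff.1 ha
    have hb' := norm_le_zero_iff.1 hb
    linear_combination (1 / 2) * ha' - (1 / 2) * hb'

/-- the two partial derivatives -/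
theorem grad_eq {R C ε θ ρ δ r : ℝ} {V : (Fin 6 → ℂ) → ℂ} {Vm : ℕ → (Fin 6 → ℂ) → ℂ}
    (h : Pool.Agent.Helper5.LD.Core R C ε V Vm) (hT : LFU.Tay V θ ρ) (hθ : θ ≤ 1 / 100) (hV : VGood δ)
    (hG : TGood r) (hr : 0 < r) (h1 : r ≤ 6/5 * δ) (h2 : 2 * r ≤ ρ) (h3 : 2 * r ≤ R) (h4 : r ≤ 1 / 10)
    {x x' y : ℂ} (hx : ‖x‖ < r) (hx' : ‖x'‖ < r) (hy : ‖y‖ < r) (hy0 : Vy x y + Vy x' y = 0) :
    LFU.dV V (six (2 * x) (2 * x')) 0 = Real.pi / 2 * Vx x y ∧
      LFU.dV V (six (2 * x) (2 * x')) 3 = Real.pi / 2 * Vx x' y := by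
  have nn : ∀ z : ℂ, ‖2 * z‖ = 2 * ‖z‖ := by
    intro z
    rw [norm_mul]
    norm_num
  have hb : ∀ z : ℂ, ‖z‖ < r → z ∈ ball (0 : ℂ) (6/5 * δ) := by
    intro z hz
    rw [mem_ball_zero_iff]
    linarith
  have hcp : six (2 * x) (2 * x') ∈ LFU.CP (Fin 6) ρ := by
    intro k
    have n1 := nn x
    have n2 := nn x'
    fin_cases k
    · show ‖2 * x‖ ≤ ρ
      linarith
    · show ‖(0 : ℂ)‖ ≤ ρ
      rw [norm_zero]
      linarith
    · show ‖(0 : ℂ)‖ ≤ ρ
      rw [norm_zero]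
      linarith
    · show ‖2 * x'‖ ≤ ρ
      linarith
    · show ‖(0 : ℂ)‖ ≤ ρ
      rw [norm_zero]
      linarith
    · show ‖(0 : ℂ)‖ ≤ ρ
      rw [norm_zero]
      linarith
  have hpi : Real.pi ≤ 4 := Real.pi_le_four
  have hpip := Real.pi_pos
  have key : ∀ z : ℂ, ‖z‖ < r → ‖Real.pi * Vx z y + 2 * z‖ ≤ 1 / 10 * ‖z‖ := by
    intro z hz
    have h5 := Vx_bound hV (hb z hz) (hb y hy)
    have h6 : Real.pi * Vx z y + 2 * z = Real.pi * (Vx z y + 2 / Real.pi * z) := by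
      have := half_pi_ne
      field_simp
    rw [h6, norm_mul, Complex.norm_real, Real.norm_of_nonneg hpip.le]
    have h7 := mul_le_mul_of_nonneg_left h5 hpip.le
    have h8 := norm_nonneg z
    nlinarith
  have key2 : ∀ (i : Fin 6) (z : ℂ), six (2 * x) (2 * x') i = 2 * z →
      ‖2 * LFU.dV V (six (2 * x) (2 * x')) i + 2 * z‖ ≤ 1 / 10 * ‖z‖ := by
    intro i z hi
    have h5 := hT.grad _ hcp i
    rw [hi] at h5
    have h6 : 2 * LFU.dV V (six (2 * x) (2 * x')) i + 2 * z =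
        2 * (LFU.dV V (six (2 * x) (2 * x')) i + 2 * z / 2) := by ring
    rw [h6, nn]
    rw [nn] at h5
    have h8 := norm_nonneg z
    nlinarith
  have hA := hG.A x y hx hy
  have hB := hG.B x y hx hy
  have hA' := hG.A x' y hx' hy
  have hB' := hG.B x' y hx' hy
  have hD := hG.D y hy
  constructor
  · refine eq_of_cosh (x := x) (by linarith) (key2 0 x rfl) (key x hx) ?_
    have e1 := cosh_TB hA hB hA' hB' hD hy0
    have e2 := cosh_six0 h (u := 2 * x) (v := 2 * x') (by rw [nn]; linarith) (by rw [nn]; linarith)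
      (hG.P x hx) (hG.Q x hx)
    apply mul_right_cancel₀ (hG.Q x hx)
    rw [e1, e2]
  · refine eq_of_cosh (x := x') (by linarith) (key2 3 x' rfl) (key x' hx') ?_
    have e1 := cosh_TB hA' hB' hA hB hD (by rw [add_comm]; exact hy0)
    have e2 := cosh_six3 h (u := 2 * x) (v := 2 * x') (by rw [nn]; linarith) (by rw [nn]; linarith)
      (hG.P x' hx') (hG.Q x' hx')
    apply mul_right_cancel₀ (hG.Q x' hx')
    rw [e1, e2]

/-- the derivative of the potential along a line of the plane of the two parameters -/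
theorem hasDerivAt_six {θ ρ : ℝ} {V : (Fin 6 → ℂ) → ℂ} (hT : LFU.Tay V θ ρ) (a b w : ℂ)
    (hw : six (2 * (w * a)) (2 * (w * b)) ∈ LFU.CP (Fin 6) ρ) :
    HasDerivAt (fun w => V (six (2 * (w * a)) (2 * (w * b))))
      (2 * a * LFU.dV V (six (2 * (w * a)) (2 * (w * b))) 0 +
        2 * b * LFU.dV V (six (2 * (w * a)) (2 * (w * b))) 3) w := by
  obtain ⟨z, hz⟩ : ∃ z, z = six (2 * (w * a)) (2 * (w * b)) := ⟨_, rfl⟩
  have hd : HasFDerivAt V (fderiv ℂ V z) z := (hT.diff z (hz ▸ hw)).hasFDerivAt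
  have hpart : ∀ i, fderiv ℂ V z (Pi.single i 1) = LFU.dV V z i := by
    intro i
    have h1 : HasDerivAt (fun t => V (Function.update z i t)) (fderiv ℂ V z (Pi.single i 1)) (z i) := by
      have h2 := hasDerivAt_update (𝕜 := ℂ) z i (z i)
      have h3 : Function.update z i (z i) = z := Function.update_eq_self i z
      have h4 : HasFDerivAt V (fderiv ℂ V z) (Function.update z i (z i)) := by
        rw [h3]
        exact hd
      exact h4.comp_hasDerivAt (z i) h2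
    exact h1.deriv.symm
  have hc : HasDerivAt (fun w : ℂ => six (2 * (w * a)) (2 * (w * b))) (six (2 * a) (2 * b)) w := by
    rw [hasDerivAt_pi]
    intro i
    have e : ∀ c : ℂ, HasDerivAt (fun w : ℂ => 2 * (w * c)) (2 * c) w := by
      intro c
      have := ((hasDerivAt_id w).mul_const c).const_mul 2
      rw [one_mul] at this
      exact this
    fin_cases i
    · exact e a
    · exact hasDerivAt_const w 0
    · exact hasDerivAt_const w 0
    · exact e b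
    · exact hasDerivAt_const w 0
    · exact hasDerivAt_const w 0
  have h5 : HasDerivAt (fun w => V (six (2 * (w * a)) (2 * (w * b)))) (fderiv ℂ V z (six (2 * a) (2 * b))) w := by
    have h6 : HasFDerivAt V (fderiv ℂ V z) (six (2 * (w * a)) (2 * (w * b))) := by
      rw [← hz]
      exact hd
    exact h6.comp_hasDerivAt w hc
  have h7 : six (2 * a) (2 * b) = (2 * a) • (Pi.single 0 1 : Fin 6 → ℂ) + (2 * b) • (Pi.single 3 1 : Fin 6 → ℂ) := by
    funext i
    fin_cases i <;> simp [six]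
  rw [h7, map_add, map_smul, map_smul, hpart, hpart, smul_eq_mul, smul_eq_mul] at h5
  rw [← hz]
  exact h5

/-- the derivative of the two-bridge potential along a curve -/
theorem hasDerivAt_TB {δ : ℝ} (hV : VGood δ) (a w : ℂ) {Y : ℂ → ℂ} {Y' : ℂ} (hY : HasDerivAt Y Y' w)
    (h1 : w * a ∈ ball (0 : ℂ) (6/5 * δ)) (h2 : Y w ∈ ball (0 : ℂ) (6/5 * δ)) :
    HasDerivAt (fun w => Pool.Agent.Helper5.TB.V (w * a) (Y w))
      (a * Vx (w * a) (Y w) + Y' * Vy (w * a) (Y w)) w := by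
  have ho : IsOpen (ball (0 : ℂ) (6/5 * δ) ×ˢ ball (0 : ℂ) (6/5 * δ)) := isOpen_ball.prod isOpen_ball
  have hd : HasFDerivAt (fun p : ℂ × ℂ => Pool.Agent.Helper5.TB.V p.1 p.2)
      (fderiv ℂ (fun p : ℂ × ℂ => Pool.Agent.Helper5.TB.V p.1 p.2) (w * a, Y w)) (w * a, Y w) :=
    (hV.joint.differentiableAt (ho.mem_nhds ⟨h1, h2⟩)).hasFDerivAt
  have p1 : fderiv ℂ (fun p : ℂ × ℂ => Pool.Agent.Helper5.TB.V p.1 p.2) (w * a, Y w) (1, 0) = Vx (w * a) (Y w) := by
    have e1 : HasDerivAt (fun x : ℂ => ((x, Y w) : ℂ × ℂ)) (1, 0) (w * a) :=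
      (hasDerivAt_id (w * a)).prodMk (hasDerivAt_const (w * a) (Y w))
    have e2 := hd.comp_hasDerivAt (w * a) e1
    exact e2.unique (hV.dx _ h1 _ h2)
  have p2 : fderiv ℂ (fun p : ℂ × ℂ => Pool.Agent.Helper5.TB.V p.1 p.2) (w * a, Y w) (0, 1) = Vy (w * a) (Y w) := by
    have e1 : HasDerivAt (fun y : ℂ => ((w * a, y) : ℂ × ℂ)) (0, 1) (Y w) :=
      (hasDerivAt_const (Y w) (w * a)).prodMk (hasDerivAt_id (Y w))
    have e2 := hd.comp_hasDerivAt (Y w) e1
    exact e2.unique (hV.dy _ h1 _ h2)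
  have e1 : HasDerivAt (fun w : ℂ => ((w * a, Y w) : ℂ × ℂ)) (a, Y') w := by
    have e0 : HasDerivAt (fun w : ℂ => w * a) a w := by
      have := (hasDerivAt_id w).mul_const a
      rw [one_mul] at this
      exact this
    exact e0.prodMk hY
  have e2 := hd.comp_hasDerivAt w e1
  have e3 : ((a, Y') : ℂ × ℂ) = a • ((1, 0) : ℂ × ℂ) + Y' • ((0, 1) : ℂ × ℂ) := by
    ext <;> simp
  rw [e3, map_add, map_smul, map_smul, p1, p2, smul_eq_mul, smul_eq_mul] at e2
  exact e2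

theorem lobachevsky_eq_lob (x : ℝ) : Pool.Agent.Helper5.TV.lobachevsky x = Pool.Agent.Helper5.TV.lob x := by
  unfold Pool.Agent.Helper5.TV.lobachevsky Pool.Agent.Helper5.TV.lob Pool.Agent.Helper5.TV.ls
  simp only [Real.log_abs]

theorem v8_eq : ((Pool.Agent.Helper5.LD.v8 : ℝ) : ℂ) =
    Real.pi * ((Pool.Agent.Helper5.TB.Vs : ℝ) + (Pool.Agent.Helper5.TB.Vs : ℝ)) := by
  have h : Pool.Agent.Helper5.LD.v8 = Real.pi * (Pool.Agent.Helper5.TB.Vs + Pool.Agent.Helper5.TB.Vs) := by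
    unfold Pool.Agent.Helper5.LD.v8 Pool.Agent.Helper5.TB.Vs
    rw [lobachevsky_eq_lob]
    have := Real.pi_ne_zero
    field_simp
    ring
  rw [h]
  push_cast
  rfl

/-- at the parameters `(2 x, 0, 0, 2 x', 0, 0)` the potential is a critical value -/
theorem pot_id {R C ε : ℝ} {V : (Fin 6 → ℂ) → ℂ} {Vm : ℕ → (Fin 6 → ℂ) → ℂ}
    (h : Pool.Agent.Helper5.LD.Core R C ε V Vm) : ∃ d > 0, ∀ x x' y : ℂ, ‖x‖ ≤ d → ‖x'‖ ≤ d →
    ‖y‖ ≤ d → Pool.Agent.Helper5.TB.Vy x y + Pool.Agent.Helper5.TB.Vy x' y = 0 →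
    V (six (2 * x) (2 * x')) =
        Real.pi * (Pool.Agent.Helper5.TB.V x y + Pool.Agent.Helper5.TB.V x' y) ∧
      LFU.dV V (six (2 * x) (2 * x')) 0 = Real.pi / 2 * Pool.Agent.Helper5.TB.Vx x y ∧
      LFU.dV V (six (2 * x) (2 * x')) 3 = Real.pi / 2 * Pool.Agent.Helper5.TB.Vx x' y := by
  obtain ⟨ρ, hρ, -, -, hV0, hT, -, -⟩ := LFU.tay (Pool.Agent.Helper5.LD.toCore h) (1/100) (by norm_num)
  have hVV : (Pool.Agent.Helper5.LD.toCore h).V = V := rfl
  rw [hVV] at hT hV0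
  have hR := h.R_pos
  obtain ⟨δ₀, hδ₀, hgood⟩ := Pool.Agent.Helper27.TB.vgood
  have hV := hgood δ₀ hδ₀ le_rfl
  obtain ⟨r₁, hr₁, hG₁⟩ := exists_tgood
  obtain ⟨r, hr⟩ : ∃ r : ℝ, r = min (min r₁ (6/5 * δ₀)) (min (min (ρ / 2) (R / 2)) (1 / 10)) := ⟨_, rfl⟩
  have hr0 : 0 < r := by
    rw [hr]
    positivity
  have l1 : r ≤ r₁ := by
    rw [hr]
    exact (min_le_left _ _).trans (min_le_left _ _)
  have l2 : r ≤ 6/5 * δ₀ := by
    rw [hr]
    exact (min_le_left _ _).trans (min_le_right _ _)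
  have l3 : r ≤ ρ / 2 := by
    rw [hr]
    exact (min_le_right _ _).trans ((min_le_left _ _).trans (min_le_left _ _))
  have l4 : r ≤ R / 2 := by
    rw [hr]
    exact (min_le_right _ _).trans ((min_le_left _ _).trans (min_le_right _ _))
  have l5 : r ≤ 1 / 10 := by
    rw [hr]
    exact (min_le_right _ _).trans (min_le_right _ _)
  have hG : TGood r :=
    ⟨fun x y hx hy => hG₁.A x y (hx.trans_le l1) (hy.trans_le l1),
      fun x y hx hy => hG₁.B x y (hx.trans_le l1) (hy.trans_le l1),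
      fun y hy => hG₁.D y (hy.trans_le l1), fun x hx => hG₁.P x (hx.trans_le l1),
      fun x hx => hG₁.Q x (hx.trans_le l1)⟩
  have grad : ∀ x x' y : ℂ, ‖x‖ < r → ‖x'‖ < r → ‖y‖ < r → Vy x y + Vy x' y = 0 →
      LFU.dV V (six (2 * x) (2 * x')) 0 = Real.pi / 2 * Vx x y ∧
      LFU.dV V (six (2 * x) (2 * x')) 3 = Real.pi / 2 * Vx x' y := fun x x' y hx hx' hy hy0 =>
    grad_eq h hT le_rfl hV hG hr0 l2 (by linarith) (by linarith) l5 hx hx' hy hy0
  refine ⟨r / 2, by positivity, fun x x' y hx hx' hy hy0 => ?_⟩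
  have hxr : ‖x‖ < r := by linarith
  have hx'r : ‖x'‖ < r := by linarith
  have hyr : ‖y‖ < r := by linarith
  refine ⟨?_, grad x x' y hxr hx'r hyr hy0⟩
  -- the path
  obtain ⟨a, ha⟩ : ∃ a : ℂ, a = x / (r / 2 : ℝ) := ⟨_, rfl⟩
  obtain ⟨b, hb⟩ : ∃ b : ℂ, b = x' / (r / 2 : ℝ) := ⟨_, rfl⟩
  have hr2 : ((r / 2 : ℝ) : ℂ) ≠ 0 := by
    have : (r / 2 : ℝ) ≠ 0 := by positivity
    exact_mod_cast this
  have na : ‖a‖ ≤ 1 := by
    rw [ha, norm_div, Complex.norm_real, Real.norm_of_nonneg (by positivity), div_le_one (by positivity)]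
    exact hx
  have nb : ‖b‖ ≤ 1 := by
    rw [hb, norm_div, Complex.norm_real, Real.norm_of_nonneg (by positivity), div_le_one (by positivity)]
    exact hx'
  have hwa : ∀ w ∈ ball (0 : ℂ) r, ∀ c : ℂ, ‖c‖ ≤ 1 → ‖w * c‖ < r := by
    intro w hw c hc
    rw [mem_ball_zero_iff] at hw
    rw [norm_mul]
    have := mul_le_mul_of_nonneg_left hc (norm_nonneg w)
    linarith
  have hin : ∀ z : ℂ, ‖z‖ < r → z ∈ ball (0 : ℂ) (6/5 * δ₀) := fun z hz =>
    mem_ball_zero_iff.2 (hz.trans_le l2)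
  have h0 : (0 : ℂ) ∈ ball (0 : ℂ) r := mem_ball_self hr0
  have hpip := Real.pi_pos
  have hpi4 := Real.pi_le_four
  -- the critical point
  have hQn : ‖(-8 / Real.pi : ℂ)‖ = 8 / Real.pi := by
    rw [norm_div, norm_neg, Complex.norm_real, Real.norm_of_nonneg hpip.le]
    norm_num
  have hQ2 : 2 ≤ 8 / Real.pi := by
    rw [le_div_iff₀ hpip]
    linarith
  obtain ⟨Y, hYd, hY⟩ := critParam (r := r) (ρ := r / 2) (κ := 1 / 10) (Q := -8 / Real.pi) (c := 0)
    (g := fun z w => Vy (w * a) z + Vy (w * b) z) (by positivity) (by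
      have := half_pi_ne
      exact div_ne_zero (by norm_num) this) (by norm_num) (closedBall_subset_ball (by linarith)) (by
      have k : ∀ c : ℂ, ‖c‖ ≤ 1 → DifferentiableOn ℂ (fun p : ℂ × ℂ => Vy (p.2 * c) p.1) (ball 0 r ×ˢ ball 0 r) := by
        intro c hc
        have k0 : Differentiable ℂ (fun p : ℂ × ℂ => (p.2 * c, p.1)) := by fun_prop
        have k1 : DifferentiableOn ℂ (fun p : ℂ × ℂ => (p.2 * c, p.1)) (ball (0 : ℂ) r ×ˢ ball (0 : ℂ) r) :=
          k0.differentiableOn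
        have k2 : Set.MapsTo (fun p : ℂ × ℂ => (p.2 * c, p.1)) (ball (0 : ℂ) r ×ˢ ball (0 : ℂ) r)
            (ball (0 : ℂ) (6/5 * δ₀) ×ˢ ball (0 : ℂ) (6/5 * δ₀)) := by
          intro p hp
          exact Set.mk_mem_prod (hin (p.2 * c) (hwa p.2 hp.2 c hc)) (hin p.1 (mem_ball_zero_iff.1 hp.1))
        have k3 := DifferentiableOn.comp hV.jointy k1 k2
        exact k3
      exact (k a na).add (k b nb)) (by
      intro z hz w hw
      have hz' := hin z (mem_ball_zero_iff.1 hz)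
      have d1 := hV.dyy _ (hin _ (hwa w hw a na)) z hz'
      have d2 := hV.dyy _ (hin _ (hwa w hw b nb)) z hz'
      have d3 := (d1.add d2).deriv
      have b1 := hV.byy _ (hin _ (hwa w hw a na)) z hz'
      have b2 := hV.byy _ (hin _ (hwa w hw b nb)) z hz'
      have e1 : deriv (fun z => Vy (w * a) z + Vy (w * b) z) z = Vyy (w * a) z + Vyy (w * b) z := d3
      rw [e1, hQn]
      have e2 : Vyy (w * a) z + Vyy (w * b) z - -8 / Real.pi =
          (Vyy (w * a) z + 4 / Real.pi) + (Vyy (w * b) z + 4 / Real.pi) := by ring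
      rw [e2]
      have := norm_add_le (Vyy (w * a) z + 4 / Real.pi) (Vyy (w * b) z + 4 / Real.pi)
      linarith) (by
      intro w hw
      have k : ∀ c : ℂ, ‖c‖ ≤ 1 → ‖Vy (w * c) 0‖ ≤ 1 / 100 * r := by
        intro c hc
        have h00 : (0 : ℂ) ∈ ball (0 : ℂ) (6/5 * δ₀) := hin 0 (by rw [norm_zero]; exact hr0)
        have k1 := Convex.norm_image_sub_le_of_norm_hasDerivWithin_le
          (f := fun x => Vy x 0) (f' := fun x => Vxy x 0) (C := 1 / 100)
          (s := ball (0 : ℂ) (6/5 * δ₀)) (fun z hz => (hV.dyx z hz 0 h00).hasDerivWithinAt)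
          (fun z hz => hV.bxy z hz 0 h00) (convex_ball 0 _) h00 (hin _ (hwa w hw c hc))
        simp only [hV.zeroy, sub_zero] at k1
        have := hwa w hw c hc
        linarith
      have k1 := k a na
      have k2 := k b nb
      have k3 := norm_add_le (Vy (w * a) 0) (Vy (w * b) 0)
      rw [hQn]
      have k4 : (1 - 1 / 10) * (8 / Real.pi) * (r / 2) ≥ (1 - 1 / 10) * 2 * (r / 2) := by
        have := mul_le_mul_of_nonneg_right hQ2 (by positivity : 0 ≤ (1 - 1 / 10 : ℝ) * (r / 2))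
        nlinarith
      show ‖Vy (w * a) 0 + Vy (w * b) 0‖ ≤ _
      linarith)
  have hYr : ∀ w ∈ ball (0 : ℂ) r, ‖Y w‖ < r := by
    intro w hw
    have := mem_closedBall_zero_iff.1 (hY w hw).1
    linarith
  -- the difference
  obtain ⟨F, hF⟩ : ∃ F : ℂ → ℂ, F = fun w => V (six (2 * (w * a)) (2 * (w * b))) -
      Real.pi * (Pool.Agent.Helper5.TB.V (w * a) (Y w) + Pool.Agent.Helper5.TB.V (w * b) (Y w)) := ⟨_, rfl⟩
  have nn : ∀ z : ℂ, ‖2 * z‖ = 2 * ‖z‖ := by
    intro z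
    rw [norm_mul]
    norm_num
  have hFd : ∀ w ∈ ball (0 : ℂ) r, HasDerivAt F 0 w := by
    intro w hw
    have hYw : HasDerivAt Y (deriv Y w) w :=
      (hYd.differentiableAt (isOpen_ball.mem_nhds hw)).hasDerivAt
    have n1 := hwa w hw a na
    have n2 := hwa w hw b nb
    have hcp : six (2 * (w * a)) (2 * (w * b)) ∈ LFU.CP (Fin 6) ρ := by
      intro k
      have m1 := nn (w * a)
      have m2 := nn (w * b)
      fin_cases k
      · show ‖2 * (w * a)‖ ≤ ρ
        linarith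
      · show ‖(0 : ℂ)‖ ≤ ρ
        rw [norm_zero]
        linarith
      · show ‖(0 : ℂ)‖ ≤ ρ
        rw [norm_zero]
        linarith
      · show ‖2 * (w * b)‖ ≤ ρ
        linarith
      · show ‖(0 : ℂ)‖ ≤ ρ
        rw [norm_zero]
        linarith
      · show ‖(0 : ℂ)‖ ≤ ρ
        rw [norm_zero]
        linarith
    have d1 := hasDerivAt_six hT a b w hcp
    have d2 := hasDerivAt_TB hV a w hYw (hin _ n1) (hin _ (hYr w hw))
    have d3 := hasDerivAt_TB hV b w hYw (hin _ n2) (hin _ (hYr w hw))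
    have d4 := d1.sub ((d2.add d3).const_mul (Real.pi : ℂ))
    have hcrit : Vy (w * a) (Y w) + Vy (w * b) (Y w) = 0 := (hY w hw).2.1
    obtain ⟨g1, g2⟩ := grad _ _ _ n1 n2 (hYr w hw) hcrit
    rw [hF]
    refine d4.congr_deriv ?_
    rw [g1, g2]
    linear_combination (-(Real.pi : ℂ) * deriv Y w) * hcrit
  have hconst : F ((r / 2 : ℝ) : ℂ) = F 0 := by
    refine isOpen_ball.is_const_of_deriv_eq_zero (convex_ball (0 : ℂ) r).isPreconnected
      (fun w hw => (hFd w hw).differentiableAt.differentiableWithinAt) (fun w hw => (hFd w hw).deriv) ?_ h0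
    rw [mem_ball_zero_iff, Complex.norm_real, Real.norm_of_nonneg (by positivity)]
    linarith
  have hend : (((r / 2 : ℝ) : ℂ)) ∈ ball (0 : ℂ) r := by
    rw [mem_ball_zero_iff, Complex.norm_real, Real.norm_of_nonneg (by positivity)]
    linarith
  have ea : ((r / 2 : ℝ) : ℂ) * a = x := by
    rw [ha, mul_div_cancel₀ _ hr2]
  have eb : ((r / 2 : ℝ) : ℂ) * b = x' := by
    rw [hb, mul_div_cancel₀ _ hr2]
  have ey : Y ((r / 2 : ℝ) : ℂ) = y := by
    refine ((hY _ hend).2.2 y (mem_ball_zero_iff.2 hyr) ?_).symm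
    show Vy (((r / 2 : ℝ) : ℂ) * a) y + Vy (((r / 2 : ℝ) : ℂ) * b) y = 0
    rw [ea, eb]
    exact hy0
  have e0 : Y 0 = 0 := by
    refine ((hY 0 h0).2.2 0 h0 ?_).symm
    show Vy (0 * a) 0 + Vy (0 * b) 0 = 0
    rw [zero_mul, zero_mul, hV.zeroy, add_zero]
  have hs0 : six (2 * (0 * a)) (2 * (0 * b)) = 0 := by
    funext i
    fin_cases i <;> simp [six]
  have hF0 : F 0 = 0 := by
    rw [hF]
    simp only
    rw [hs0, hV0, zero_mul, zero_mul, e0, hV.zero]
    show ((Pool.Agent.Helper5.LD.v8 : ℝ) : ℂ) - _ = 0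
    rw [v8_eq]
    ring
  rw [hF0] at hconst
  rw [hF] at hconst
  simp only at hconst
  rw [ea, eb, ey] at hconst
  exact sub_eq_zero.1 hconst

end ARB
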